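import Mathlib

/-!
# Sunflowers in `t`-partite families of `t`-sets

A member of a `t`-partite family of `t`-sets is a function `Fin t → ℕ` (the element of the `i`-th
part is `x i`).
-/

set_option autoImplicit false

namespace Pool.Agent.Q142.SF

open Finset

/-- The relation `f x = f y` is trivial on `S`: all points of `S` are equivalent or no two are. -/
def Triv {V W : Type} (f : V → W) (S : Finset V) : Prop :=
  (∀ x ∈ S, ∀ y ∈ S, f x = f y) ∨ (∀ x ∈ S, ∀ y ∈ S, f x = f y → x = y)

/-- A sunflower: in every part the members of `S` have the same element or distinct elements. -/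
def Flower {t : ℕ} (S : Finset (Fin t → ℕ)) : Prop := ∀ i : Fin t, Triv (fun x => x i) S

/-- `F` contains no sunflower with `k` petals. -/
def Free {t : ℕ} (k : ℕ) (F : Finset (Fin t → ℕ)) : Prop :=
  ∀ S ⊆ F, S.card = k → ¬ Flower S

/-- The largest number of members of a `t`-partite family of `t`-sets without sunflower with `k`
petals. -/
noncomputable def sf (t k : ℕ) : ℕ :=
  sSup {n : ℕ | ∃ F : Finset (Fin t → ℕ), Free k F ∧ F.card = n}

theorem Free.sub {t k : ℕ} {F G : Finset (Fin t → ℕ)} (h : Free k F) (hG : G ⊆ F) : Free k G :=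
  fun S hS hc => h S (hS.trans hG) hc

theorem upper : ∀ (t k : ℕ) (F : Finset (Fin t → ℕ)), 1 ≤ k → Free k F →
    F.card ≤ t.factorial * (k - 1) ^ t := by
  intro t
  induction t with
  | zero =>
    intro k F _ _
    have : F.card ≤ 1 := Finset.card_le_one.mpr (fun a _ b _ => Subsingleton.elim a b)
    simpa using this
  | succ t ih =>
    intro k F hk hF
    classical
    -- a maximal subfamily with pairwise disjoint members
    let P : Finset (Fin (t + 1) → ℕ) → Prop :=
      fun M => ∀ x ∈ M, ∀ y ∈ M, x ≠ y → ∀ i, x i ≠ y i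
    obtain ⟨M, hM, hmax⟩ : ∃ M ∈ F.powerset.filter P, ∀ M' ∈ F.powerset.filter P,
        M'.card ≤ M.card := by
      apply Finset.exists_max_image
      refine ⟨∅, ?_⟩
      simp [P]
    rw [Finset.mem_filter, Finset.mem_powerset] at hM
    obtain ⟨hMF, hMP⟩ := hM
    have hMc : M.card ≤ k - 1 := by
      by_contra hlt
      push Not at hlt
      obtain ⟨S, hS, hSc⟩ := Finset.exists_subset_card_eq (show k ≤ M.card by omega)
      refine hF S (hS.trans hMF) hSc (fun i => Or.inr ?_)
      intro x hx y hy hxy
      by_contra hne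
      exact hMP x (hS hx) y (hS hy) hne i hxy
    -- every member agrees with a member of `M` somewhere
    have hcov : F ⊆ (M ×ˢ (Finset.univ : Finset (Fin (t + 1)))).biUnion
        (fun p => F.filter (fun x => x p.2 = p.1 p.2)) := by
      intro x hx
      rw [Finset.mem_biUnion]
      by_contra hcon
      push Not at hcon
      have hdis : ∀ m ∈ M, ∀ i, x i ≠ m i := by
        intro m hm i hxi
        refine hcon (m, i) (Finset.mem_product.mpr ⟨hm, Finset.mem_univ _⟩) ?_
        exact Finset.mem_filter.mpr ⟨hx, hxi⟩
      have hxM : x ∉ M := fun hxM => hdis x hxM 0 rfl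
      have hins : insert x M ∈ F.powerset.filter P := by
        rw [Finset.mem_filter, Finset.mem_powerset]
        refine ⟨Finset.insert_subset hx hMF, ?_⟩
        intro a ha b hb hab i
        rw [Finset.mem_insert] at ha hb
        rcases ha with rfl | ha <;> rcases hb with rfl | hb
        · exact absurd rfl hab
        · exact hdis b hb i
        · exact fun h => hdis a ha i h.symm
        · exact hMP a ha b hb hab i
      have := hmax _ hins
      rw [Finset.card_insert_of_notMem hxM] at this
      omega
    -- the members with a given element in a given part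
    have hpart : ∀ (i : Fin (t + 1)) (a : ℕ), (F.filter (fun x => x i = a)).card ≤
        t.factorial * (k - 1) ^ t := by
      intro i a
      let g : (Fin (t + 1) → ℕ) → (Fin t → ℕ) := fun x j => x (i.succAbove j)
      have hinj : Set.InjOn g (F.filter (fun x => x i = a)) := by
        intro x hx y hy hxy
        rw [Finset.mem_coe, Finset.mem_filter] at hx hy
        funext j
        by_cases hj : j = i
        · rw [hj, hx.2, hy.2]
        · obtain ⟨l, rfl⟩ := Fin.exists_succAbove_eq hj
          exact congrFun hxy l
      rw [← Finset.card_image_of_injOn hinj]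
      refine ih k _ hk ?_
      intro S hS hSc hfl
      -- lift `S`
      obtain ⟨T, hT, hTS⟩ := Finset.subset_image_iff.mp hS
      have hT' : T ⊆ F.filter (fun x => x i = a) := by
        intro x hx
        exact hT hx
      have hTinj : Set.InjOn g T := hinj.mono (by exact_mod_cast hT')
      have hTc : T.card = k := by
        rw [← hSc, ← hTS, Finset.card_image_of_injOn hTinj]
      refine hF T (hT'.trans (Finset.filter_subset _ _)) hTc ?_
      intro j
      by_cases hj : j = i
      · left
        intro x hx y hy
        have h1 := (Finset.mem_filter.mp (hT' hx)).2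
        have h2 := (Finset.mem_filter.mp (hT' hy)).2
        simp only [hj, h1, h2]
      · obtain ⟨l, rfl⟩ := Fin.exists_succAbove_eq hj
        rcases hfl l with h | h
        · left
          intro x hx y hy
          have := h (g x) (hTS ▸ Finset.mem_image_of_mem g hx) (g y)
            (hTS ▸ Finset.mem_image_of_mem g hy)
          exact this
        · right
          intro x hx y hy hxy
          have := h (g x) (hTS ▸ Finset.mem_image_of_mem g hx) (g y)
            (hTS ▸ Finset.mem_image_of_mem g hy) hxy
          exact hTinj hx hy this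
    calc F.card ≤ ((M ×ˢ (Finset.univ : Finset (Fin (t + 1)))).biUnion
        (fun p => F.filter (fun x => x p.2 = p.1 p.2))).card := Finset.card_le_card hcov
      _ ≤ ∑ p ∈ M ×ˢ (Finset.univ : Finset (Fin (t + 1))),
          (F.filter (fun x => x p.2 = p.1 p.2)).card := Finset.card_biUnion_le
      _ ≤ ∑ _p ∈ M ×ˢ (Finset.univ : Finset (Fin (t + 1))), t.factorial * (k - 1) ^ t :=
          Finset.sum_le_sum (fun p _ => hpart _ _)
      _ = (M.card * (t + 1)) * (t.factorial * (k - 1) ^ t) := by
          rw [Finset.sum_const, Finset.card_product, Finset.card_univ, Fintype.card_fin,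
            smul_eq_mul]
      _ ≤ ((k - 1) * (t + 1)) * (t.factorial * (k - 1) ^ t) := by gcongr
      _ = (t + 1).factorial * (k - 1) ^ (t + 1) := by
          rw [Nat.factorial_succ, pow_succ]; ring

theorem bdd (t k : ℕ) (hk : 1 ≤ k) :
    BddAbove {n : ℕ | ∃ F : Finset (Fin t → ℕ), Free k F ∧ F.card = n} := by
  refine ⟨t.factorial * (k - 1) ^ t, ?_⟩
  rintro n ⟨F, hF, rfl⟩
  exact upper t k F hk hF

theorem card_le_sf {t k : ℕ} (hk : 1 ≤ k) {F : Finset (Fin t → ℕ)} (hF : Free k F) :
    F.card ≤ sf t k :=
  le_csSup (bdd t k hk) ⟨F, hF, rfl⟩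

theorem free_empty {t k : ℕ} (hk : 1 ≤ k) : Free k (∅ : Finset (Fin t → ℕ)) := by
  intro S hS hc
  rw [Finset.subset_empty] at hS
  rw [hS, Finset.card_empty] at hc
  omega

theorem exists_sf (t k : ℕ) (hk : 1 ≤ k) :
    ∃ F : Finset (Fin t → ℕ), Free k F ∧ F.card = sf t k := by
  have hne : ({n : ℕ | ∃ F : Finset (Fin t → ℕ), Free k F ∧ F.card = n} : Set ℕ).Nonempty :=
    ⟨0, ∅, free_empty hk, Finset.card_empty⟩
  exact Nat.sSup_mem hne (bdd t k hk)

theorem sf_le (t k : ℕ) (hk : 1 ≤ k) : sf t k ≤ t.factorial * (k - 1) ^ t := by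
  obtain ⟨F, hF, hc⟩ := exists_sf t k hk
  rw [← hc]
  exact upper t k F hk hF

theorem le_sf (t k : ℕ) (hk : 2 ≤ k) : (k - 1) ^ t ≤ sf t k := by
  classical
  have hfree : Free k (Fintype.piFinset (fun _ : Fin t => Finset.range (k - 1))) := by
    intro S hS hc hfl
    obtain ⟨x, hx, y, hy, hxy⟩ := Finset.one_lt_card.mp (show 1 < S.card by omega)
    obtain ⟨i, hi⟩ := Function.ne_iff.mp hxy
    rcases hfl i with h | h
    · exact hi (h x hx y hy)
    · have h1 : (S.image (fun x => x i)).card = k := by
        rw [Finset.card_image_of_injOn, hc]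
        intro a ha b hb hab
        exact h a ha b hb hab
      have h2 : (S.image (fun x => x i)).card ≤ (Finset.range (k - 1)).card := by
        apply Finset.card_le_card
        intro z hz
        obtain ⟨a, ha, rfl⟩ := Finset.mem_image.mp hz
        exact Fintype.mem_piFinset.mp (hS ha) i
      rw [Finset.card_range] at h2
      omega
  have := card_le_sf (by omega) hfree
  rwa [Fintype.card_piFinset, Finset.prod_const, Finset.card_univ, Fintype.card_fin,
    Finset.card_range] at this

/-- Among more than `(k - 1) sf t k` points there are `k` points on which all `t` relations are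
trivial. -/
theorem find {V : Type} {t k : ℕ} (e : Fin t → V → ℕ) (A : Finset V)
    (hA : (k - 1) * sf t k < A.card) : ∃ S ⊆ A, S.card = k ∧ ∀ i, Triv (e i) S := by
  classical
  rcases Nat.eq_zero_or_pos k with rfl | hk
  · refine ⟨∅, Finset.empty_subset _, rfl, fun i => Or.inl ?_⟩
    simp
  let φ : V → (Fin t → ℕ) := fun x i => e i x
  by_cases hfib : ∃ z ∈ A.image φ, k ≤ (A.filter (fun x => φ x = z)).card
  · obtain ⟨z, _, hz⟩ := hfib
    obtain ⟨S, hS, hSc⟩ := Finset.exists_subset_card_eq hz
    refine ⟨S, hS.trans (Finset.filter_subset _ _), hSc, fun i => Or.inl ?_⟩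
    intro x hx y hy
    have h1 := (Finset.mem_filter.mp (hS hx)).2
    have h2 := (Finset.mem_filter.mp (hS hy)).2
    exact (congrFun h1 i).trans (congrFun h2 i).symm
  · push Not at hfib
    have h1 : A.card ≤ (A.image φ).card * (k - 1) := by
      rw [mul_comm]
      apply Finset.card_le_mul_card_image_of_maps_to (f := φ)
        (fun x hx => Finset.mem_image_of_mem φ hx)
      intro z hz
      have := hfib z hz
      omega
    have h2 : ¬ Free k (A.image φ) := by
      intro hfree
      have := card_le_sf hk hfree
      have h3 : (A.image φ).card * (k - 1) ≤ sf t k * (k - 1) := Nat.mul_le_mul_right _ this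
      rw [mul_comm] at hA
      omega
    unfold Free at h2
    push Not at h2
    obtain ⟨S, hS, hSc, hfl⟩ := h2
    have hch : ∀ z : (Fin t → ℕ), z ∈ S → ∃ x, x ∈ A ∧ φ x = z := by
      intro z hz
      obtain ⟨x, hx, hxz⟩ := Finset.mem_image.mp (hS hz)
      exact ⟨x, hx, hxz⟩
    obtain ⟨x₀, _⟩ : A.Nonempty := Finset.card_pos.mp (by omega)
    have : Nonempty V := ⟨x₀⟩
    choose! g hgA hg using hch
    have hginj : Set.InjOn g (S : Set (Fin t → ℕ)) := by
      intro a ha b hb hab
      rw [← hg a ha, ← hg b hb, hab]
    refine ⟨S.image g, ?_, ?_, ?_⟩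
    · intro x hx
      obtain ⟨z, hz, rfl⟩ := Finset.mem_image.mp hx
      exact hgA z hz
    · rw [Finset.card_image_of_injOn hginj, hSc]
    · intro i
      have key : ∀ z ∈ S, e i (g z) = z i := fun z hz => congrFun (hg z hz) i
      rcases hfl i with h | h
      · left
        intro x hx y hy
        obtain ⟨z, hz, rfl⟩ := Finset.mem_image.mp hx
        obtain ⟨w, hw, rfl⟩ := Finset.mem_image.mp hy
        rw [key z hz, key w hw]
        exact h z hz w hw
      · right
        intro x hx y hy hxy
        obtain ⟨z, hz, rfl⟩ := Finset.mem_image.mp hx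
        obtain ⟨w, hw, rfl⟩ := Finset.mem_image.mp hy
        rw [key z hz, key w hw] at hxy
        rw [h z hz w hw hxy]

end Pool.Agent.Q142.SF
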