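import Pool.Agent.Q142.SF.Ramsey

/-!
# The sunflower conjecture and `t`-partite families
-/

set_option autoImplicit false

namespace Pool.Agent.Q142.SF

open Finset

/-- The sunflower conjecture of Erdős and Rado for `k` petals. -/
def SunflowerConj (k : ℕ) : Prop :=
  ∃ C : ℕ, ∀ (t : ℕ) (F : Finset (Finset ℕ)), (∀ A ∈ F, A.card = t) → C ^ t < F.card →
    ∃ S ⊆ F, S.card = k ∧ ∃ K : Finset ℕ, ∀ A ∈ S, ∀ B ∈ S, A ≠ B → A ∩ B = K

/-- The set of a member of a `t`-partite family. -/
def toSet {t : ℕ} (x : Fin t → ℕ) : Finset ℕ :=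
  Finset.univ.image (fun i : Fin t => Nat.pair i (x i))

theorem mem_toSet {t : ℕ} (x : Fin t → ℕ) (i : Fin t) (a : ℕ) :
    Nat.pair i a ∈ toSet x ↔ a = x i := by
  unfold toSet
  rw [Finset.mem_image]
  constructor
  · rintro ⟨j, _, hj⟩
    rw [Nat.pair_eq_pair] at hj
    have : j = i := Fin.val_injective hj.1
    rw [← hj.2, this]
  · rintro rfl
    exact ⟨i, Finset.mem_univ _, rfl⟩

theorem toSet_inj {t : ℕ} : Function.Injective (toSet (t := t)) := by
  intro x y h
  funext i
  rw [← mem_toSet y i, ← h, mem_toSet]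

theorem toSet_card {t : ℕ} (x : Fin t → ℕ) : (toSet x).card = t := by
  unfold toSet
  rw [Finset.card_image_of_injective, Finset.card_univ, Fintype.card_fin]
  intro i j h
  simp only [Nat.pair_eq_pair] at h
  exact Fin.val_injective h.1

theorem sf_of_conj {k : ℕ} (hk : 2 ≤ k) (h : SunflowerConj k) : ∃ C : ℕ, ∀ t, sf t k ≤ C ^ t := by
  classical
  obtain ⟨C, hC⟩ := h
  refine ⟨C, fun t => ?_⟩
  obtain ⟨F, hF, hFc⟩ := exists_sf t k (by omega)
  by_contra hlt
  push Not at hlt
  obtain ⟨S, hS, hSc, K, hK⟩ := hC t (F.image toSet)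
    (by
      intro A hA
      obtain ⟨x, _, rfl⟩ := Finset.mem_image.mp hA
      exact toSet_card x)
    (by rw [Finset.card_image_of_injective _ toSet_inj, hFc]; exact hlt)
  obtain ⟨T, hT, hTS⟩ := Finset.subset_image_iff.mp hS
  have hTc : T.card = k := by
    rw [← hSc, ← hTS, Finset.card_image_of_injective _ toSet_inj]
  refine hF T hT hTc (fun i => ?_)
  have hmem : ∀ x ∈ T, toSet x ∈ S := fun x hx => hTS ▸ Finset.mem_image_of_mem _ hx
  by_cases hi : ∃ a, Nat.pair i a ∈ K
  · obtain ⟨a, ha⟩ := hi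
    have hval : ∀ x ∈ T, x i = a := by
      intro x hx
      obtain ⟨y, hy, hxy⟩ := Finset.exists_mem_ne (show 1 < T.card by omega) x
      have h1 := hK _ (hmem y hy) _ (hmem x hx) (fun h => hxy (toSet_inj h))
      rw [← h1, Finset.mem_inter] at ha
      exact ((mem_toSet x i a).mp ha.2).symm
    left
    intro x hx y hy
    simp only [hval x hx, hval y hy]
  · right
    intro x hx y hy hxy
    by_contra hne
    apply hi
    refine ⟨x i, ?_⟩
    rw [← hK _ (hmem x hx) _ (hmem y hy) (fun h => hne (toSet_inj h)), Finset.mem_inter]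
    exact ⟨(mem_toSet x i _).mpr rfl, (mem_toSet y i _).mpr hxy⟩

/-- The number of functions which are injective on a given `t`-set. -/
theorem count {m t : ℕ} (A : Finset (Fin m)) (hA : A.card = t) :
    (Finset.univ.filter (fun χ : Fin m → Fin t => Set.InjOn χ (A : Set (Fin m)))).card * t ^ t =
      t.factorial * t ^ m := by
  classical
  have h1 : (Finset.univ.filter (fun χ : Fin m → Fin t => Set.InjOn χ (A : Set (Fin m)))).card =
      ((Finset.univ.filter (fun g : {a : Fin m // a ∈ A} → Fin t => Function.Injective g)) ×ˢ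
        (Finset.univ : Finset ({a : Fin m // ¬ a ∈ A} → Fin t))).card := by
    apply Finset.card_equiv (Equiv.piEquivPiSubtypeProd (fun a => a ∈ A) (fun _ => Fin t))
    intro χ
    simp only [Finset.mem_filter, Finset.mem_univ, true_and, Finset.mem_product, and_true,
      Equiv.piEquivPiSubtypeProd_apply]
    constructor
    · intro h x y hxy
      exact Subtype.ext (h x.2 y.2 hxy)
    · intro h x hx y hy hxy
      have := @h ⟨x, hx⟩ ⟨y, hy⟩ hxy
      exact congrArg Subtype.val this
  have h2 : (Finset.univ.filter (fun g : {a : Fin m // a ∈ A} → Fin t =>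
      Function.Injective g)).card = t.factorial := by
    rw [← Fintype.card_subtype, Fintype.card_congr (Equiv.subtypeInjectiveEquivEmbedding _ _),
      Fintype.card_embedding_eq, Fintype.card_fin, Fintype.card_coe, hA, Nat.descFactorial_self]
  have h3 : Fintype.card {a : Fin m // ¬ a ∈ A} = m - t := by
    rw [Fintype.card_subtype_compl, Fintype.card_fin, Fintype.card_coe, hA]
  have h4 : t ≤ m := by
    rw [← hA]
    simpa using Finset.card_le_univ A
  rw [h1, Finset.card_product, h2, Finset.card_univ, Fintype.card_fun, Fintype.card_fin, h3,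
    mul_assoc, ← pow_add, Nat.sub_add_cancel h4]

/-- Some colouring with `t` colours has many rainbow members. -/
theorem rainbow {m t : ℕ} (ht : 1 ≤ t) (F : Finset (Finset (Fin m)))
    (hF : ∀ A ∈ F, A.card = t) : ∃ χ : Fin m → Fin t,
      F.card * t.factorial ≤
        (F.filter (fun A : Finset (Fin m) => Set.InjOn χ (A : Set (Fin m)))).card * t ^ t := by
  classical
  by_contra hcon
  push Not at hcon
  have : Nonempty (Fin t) := ⟨⟨0, ht⟩⟩
  have h1 : ∑ χ : Fin m → Fin t,
      (F.filter (fun A : Finset (Fin m) => Set.InjOn χ (A : Set (Fin m)))).card * t ^ t <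
      ∑ _χ : Fin m → Fin t, F.card * t.factorial :=
    Finset.sum_lt_sum_of_nonempty Finset.univ_nonempty (fun χ _ => hcon χ)
  have h2 : ∑ χ : Fin m → Fin t,
      (F.filter (fun A : Finset (Fin m) => Set.InjOn χ (A : Set (Fin m)))).card * t ^ t =
      ∑ A ∈ F, (Finset.univ.filter
        (fun χ : Fin m → Fin t => Set.InjOn χ (A : Set (Fin m)))).card * t ^ t := by
    rw [← Finset.sum_mul, ← Finset.sum_mul]
    congr 1
    simp only [Finset.card_filter]
    exact Finset.sum_comm
  rw [h2, Finset.sum_congr rfl (fun A hA => count A (hF A hA)), Finset.sum_const,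
    Finset.sum_const, Finset.card_univ, Fintype.card_fun, Fintype.card_fin, Fintype.card_fin,
    smul_eq_mul, smul_eq_mul] at h1
  apply absurd h1
  push Not
  apply le_of_eq
  ring

theorem pow_self_le (t : ℕ) : t ^ t ≤ 3 ^ t * t.factorial := by
  have h1 : (t : ℝ) ^ t / t.factorial ≤ Real.exp t :=
    Real.pow_div_factorial_le_exp (t : ℝ) (Nat.cast_nonneg t) t
  have h2 : Real.exp t ≤ 3 ^ t := by
    have : Real.exp (t : ℝ) = Real.exp 1 ^ t := by
      rw [← Real.exp_nat_mul, mul_one]
    rw [this]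
    exact pow_le_pow_left₀ (Real.exp_pos 1).le (by linarith [Real.exp_one_lt_d9]) t
  have h3 : (0 : ℝ) < t.factorial := by exact_mod_cast t.factorial_pos
  rw [div_le_iff₀ h3] at h1
  have h4 : (t : ℝ) ^ t ≤ 3 ^ t * t.factorial :=
    h1.trans (mul_le_mul_of_nonneg_right h2 h3.le)
  exact_mod_cast h4

/-- A family of `t`-sets without sunflower has at most `3 ^ t sf t k` members. -/
theorem card_le_of_noSunflower {m t k : ℕ} (ht : 1 ≤ t) (hk : 1 ≤ k)
    (F : Finset (Finset (Fin m))) (hF : ∀ A ∈ F, A.card = t)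
    (hno : ∀ S ⊆ F, S.card = k → ¬ ∃ K : Finset (Fin m), ∀ A ∈ S, ∀ B ∈ S, A ≠ B → A ∩ B = K) :
    F.card ≤ 3 ^ t * sf t k := by
  classical
  obtain ⟨χ, hχ⟩ := rainbow ht F hF
  set G := F.filter (fun A : Finset (Fin m) => Set.InjOn χ (A : Set (Fin m))) with hG
  let y : Finset (Fin m) → (Fin t → ℕ) := fun A i => ∑ x ∈ A.filter (fun x => χ x = i), (x : ℕ)
  have hy : ∀ A ∈ G, ∀ z ∈ A, y A (χ z) = (z : ℕ) := by
    intro A hA z hz
    have hinj := (Finset.mem_filter.mp hA).2
    have : A.filter (fun x => χ x = χ z) = {z} := by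
      ext w
      simp only [Finset.mem_filter, Finset.mem_singleton]
      constructor
      · rintro ⟨hw, hwz⟩
        exact hinj hw hz hwz
      · rintro rfl
        exact ⟨hz, rfl⟩
    simp only [y, this, Finset.sum_singleton]
  have hsurj : ∀ A ∈ G, ∀ i : Fin t, ∃ z ∈ A, χ z = i := by
    intro A hA i
    have hinj := (Finset.mem_filter.mp hA).2
    have hc := hF A (Finset.mem_filter.mp hA).1
    have h1 : A.image χ = Finset.univ := by
      apply Finset.eq_univ_of_card
      rw [Finset.card_image_of_injOn hinj, hc, Fintype.card_fin]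
    have h2 : i ∈ A.image χ := by rw [h1]; exact Finset.mem_univ _
    obtain ⟨z, hz, hzi⟩ := Finset.mem_image.mp h2
    exact ⟨z, hz, hzi⟩
  have hmem : ∀ A ∈ G, ∀ z : Fin m, z ∈ A ↔ (z : ℕ) = y A (χ z) := by
    intro A hA z
    constructor
    · intro hz
      exact (hy A hA z hz).symm
    · intro hz
      obtain ⟨w, hw, hwz⟩ := hsurj A hA (χ z)
      have := hy A hA w hw
      rw [hwz, ← hz] at this
      have h3 : z = w := Fin.val_injective this
      rw [h3]; exact hw
  have hyinj : Set.InjOn y (G : Set (Finset (Fin m))) := by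
    intro A hA B hB hAB
    ext z
    rw [hmem A hA z, hmem B hB z, hAB]
  have hfree : Free k (G.image y) := by
    intro S hS hSc hfl
    obtain ⟨T, hT, hTS⟩ := Finset.subset_image_iff.mp hS
    have hT' : T ⊆ G := fun A hA => hT hA
    have hTc : T.card = k := by
      rw [← hSc, ← hTS, Finset.card_image_of_injOn (hyinj.mono hT)]
    obtain ⟨A₀, hA₀⟩ : T.Nonempty := Finset.card_pos.mp (by omega)
    refine hno T (hT'.trans (Finset.filter_subset _ _)) hTc
      ⟨A₀.filter (fun a => ∀ B ∈ T, a ∈ B), ?_⟩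
    intro A hA B hB hAB
    ext z
    rw [Finset.mem_inter, Finset.mem_filter]
    constructor
    · rintro ⟨hzA, hzB⟩
      have h1 := hy A (hT' hA) z hzA
      have h2 := hy B (hT' hB) z hzB
      have hall : ∀ D ∈ T, z ∈ D := by
        intro D hD
        rcases hfl (χ z) with h | h
        · have h3 := h (y D) (hTS ▸ Finset.mem_image_of_mem y hD) (y A)
            (hTS ▸ Finset.mem_image_of_mem y hA)
          rw [hmem D (hT' hD) z]
          simp only at h3
          rw [h3, h1]
        · exfalso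
          have h3 := h (y A) (hTS ▸ Finset.mem_image_of_mem y hA) (y B)
            (hTS ▸ Finset.mem_image_of_mem y hB) (by simp only [h1, h2])
          exact hAB (hyinj (hT' hA) (hT' hB) h3)
      exact ⟨hall A₀ hA₀, hall⟩
    · rintro ⟨_, hall⟩
      exact ⟨hall A hA, hall B hB⟩
  have hGc : G.card ≤ sf t k := by
    have := card_le_sf hk hfree
    rwa [Finset.card_image_of_injOn hyinj] at this
  have h1 : F.card * t.factorial ≤ sf t k * (3 ^ t * t.factorial) :=
    hχ.trans ((Nat.mul_le_mul_right _ hGc).trans (Nat.mul_le_mul_left _ (pow_self_le t)))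
  have h2 : F.card * t.factorial ≤ (3 ^ t * sf t k) * t.factorial := by
    calc F.card * t.factorial ≤ sf t k * (3 ^ t * t.factorial) := h1
      _ = (3 ^ t * sf t k) * t.factorial := by ring
  exact Nat.le_of_mul_le_mul_right h2 t.factorial_pos

theorem conj_of_sf {k : ℕ} (hk : 1 ≤ k) (h : ∃ C : ℕ, ∀ t, sf t k ≤ C ^ t) : SunflowerConj k := by
  classical
  obtain ⟨C, hC⟩ := h
  refine ⟨3 * C, ?_⟩
  intro t F hF hlt
  by_contra hno
  push Not at hno
  rcases Nat.eq_zero_or_pos t with rfl | ht
  · have : F.card ≤ 1 := by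
      refine Finset.card_le_one.mpr (fun A hA B hB => ?_)
      rw [Finset.card_eq_zero.mp (hF A hA), Finset.card_eq_zero.mp (hF B hB)]
    simp only [pow_zero] at hlt
    omega
  · -- move the family to `Fin m`
    obtain ⟨m, hm⟩ : ∃ m, ∀ A ∈ F, ∀ a ∈ A, a < m := by
      refine ⟨(F.sup id).sup id + 1, ?_⟩
      intro A hA a ha
      have h1 : a ∈ F.sup id := by
        rw [Finset.mem_sup]
        exact ⟨A, hA, ha⟩
      have h2 : a ≤ (F.sup id).sup id := Finset.le_sup (f := id) h1
      omega
    let ρ : Finset ℕ → Finset (Fin m) := fun A => Finset.univ.filter (fun x => (x : ℕ) ∈ A)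
    have hρmem : ∀ A (x : Fin m), x ∈ ρ A ↔ (x : ℕ) ∈ A := by
      intro A x
      simp only [ρ, Finset.mem_filter, Finset.mem_univ, true_and]
    have hρmap : ∀ A ∈ F, (ρ A).map Fin.valEmbedding = A := by
      intro A hA
      ext a
      rw [Finset.mem_map]
      constructor
      · rintro ⟨x, hx, rfl⟩
        exact (hρmem A x).mp hx
      · intro ha
        exact ⟨⟨a, hm A hA a ha⟩, (hρmem A _).mpr ha, rfl⟩
    have hρinj : Set.InjOn ρ (F : Set (Finset ℕ)) := by
      intro A hA B hB hAB
      rw [← hρmap A hA, ← hρmap B hB, hAB]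
    have hmain := card_le_of_noSunflower (m := m) (t := t) (k := k) ht hk (F.image ρ) ?_ ?_
    · rw [Finset.card_image_of_injOn hρinj] at hmain
      have h1 : 3 ^ t * sf t k ≤ (3 * C) ^ t := by
        rw [mul_pow]
        exact Nat.mul_le_mul_left _ (hC t)
      omega
    · intro B hB
      obtain ⟨A, hA, rfl⟩ := Finset.mem_image.mp hB
      rw [← hF A hA]
      conv_rhs => rw [← hρmap A hA]
      rw [Finset.card_map]
    · rintro S hS hSc ⟨K, hK⟩
      obtain ⟨T, hT, hTS⟩ := Finset.subset_image_iff.mp hS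
      have hT' : T ⊆ F := fun A hA => hT hA
      have hTc : T.card = k := by
        rw [← hSc, ← hTS, Finset.card_image_of_injOn (hρinj.mono hT)]
      obtain ⟨A, hA, B, hB, hAB, hne⟩ := hno T hT' hTc (K.map Fin.valEmbedding)
      apply hne
      have h1 := hK (ρ A) (hTS ▸ Finset.mem_image_of_mem ρ hA) (ρ B)
        (hTS ▸ Finset.mem_image_of_mem ρ hB) (fun h => hAB (hρinj (hT' hA) (hT' hB) h))
      rw [← h1, Finset.map_inter, hρmap A (hT' hA), hρmap B (hT' hB)]

theorem conj_iff {k : ℕ} (hk : 2 ≤ k) : SunflowerConj k ↔ ∃ C : ℕ, ∀ t, sf t k ≤ C ^ t :=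
  ⟨sf_of_conj hk, conj_of_sf (by omega)⟩

end Pool.Agent.Q142.SF
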