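import Pool.Agent.Q142.SF.Ramsey

/-!
# Every colouring is determined by `O(log N)` equivalence relations
-/

set_option autoImplicit false

namespace Pool.Agent.Q142.SF

open Finset

/-- The functions for which `a p ↦ b p` preserves the relation are at most half of all functions. -/
theorem half {N r : ℕ} (hr : 2 ≤ r) (a b : Fin r → Fin N) (hb : Function.Injective b)
    (p₀ : Fin r) (hp₀ : ∀ p, a p ≠ b p₀) :
    2 * (Finset.univ.filter (fun f : Fin N → Bool =>
      ∀ p q, f (a p) = f (a q) ↔ f (b p) = f (b q))).card ≤ 2 ^ N := by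
  classical
  obtain ⟨q₀, hq₀⟩ : ∃ q : Fin r, q ≠ p₀ := by
    have : Nontrivial (Fin r) := Fin.nontrivial_iff_two_le.mpr hr
    exact exists_ne p₀
  set H := Finset.univ.filter (fun f : Fin N → Bool =>
      ∀ p q, f (a p) = f (a q) ↔ f (b p) = f (b q)) with hH
  let flip : (Fin N → Bool) → (Fin N → Bool) := fun f => Function.update f (b p₀) (!f (b p₀))
  have hflip : Function.Injective flip := by
    intro f g hfg
    funext x
    by_cases hx : x = b p₀
    · have := congrFun hfg x
      simp only [flip, hx, Function.update_self] at this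
      rw [hx]
      exact Bool.not_inj this
    · have := congrFun hfg x
      simpa only [flip, Function.update_of_ne hx] using this
  have hdis : Disjoint H (H.image flip) := by
    rw [Finset.disjoint_left]
    intro f hf hf'
    obtain ⟨g, hg, rfl⟩ := Finset.mem_image.mp hf'
    have h1 := (Finset.mem_filter.mp hg).2 p₀ q₀
    have h2 := (Finset.mem_filter.mp hf).2 p₀ q₀
    have e1 : flip g (a p₀) = g (a p₀) := Function.update_of_ne (hp₀ p₀) _ _
    have e2 : flip g (a q₀) = g (a q₀) := Function.update_of_ne (hp₀ q₀) _ _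
    have e3 : flip g (b p₀) = !g (b p₀) := Function.update_self _ _ _
    have e4 : flip g (b q₀) = g (b q₀) :=
      Function.update_of_ne (fun h => hq₀ (hb h)) _ _
    rw [e1, e2, e3, e4] at h2
    rw [h1] at h2
    revert h2
    cases g (b p₀) <;> cases g (b q₀) <;> simp
  have hc : (H ∪ H.image flip).card = 2 * H.card := by
    rw [Finset.card_union_of_disjoint hdis, Finset.card_image_of_injective _ hflip]
    ring
  rw [← hc]
  calc (H ∪ H.image flip).card ≤ Fintype.card (Fin N → Bool) := Finset.card_le_univ _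
    _ = 2 ^ N := by rw [Fintype.card_fun, Fintype.card_fin, Fintype.card_bool]

/-- `t` bipartitions which distinguish all `r`-sets, if `N ^ (2 r) < 2 ^ t`. -/
theorem exists_bipartitions {N r t : ℕ} (hr : 2 ≤ r) (ht : N ^ (2 * r) < 2 ^ t) :
    ∃ F : Fin t → Fin N → Bool, ∀ a b : Fin r → Fin N, Function.Injective b →
      (∃ p₀, ∀ p, a p ≠ b p₀) →
      ¬ ∀ i p q, F i (a p) = F i (a q) ↔ F i (b p) = F i (b q) := by
  classical
  by_contra hcon
  push Not at hcon
  -- the bad pairs
  let G : Finset ((Fin r → Fin N) × (Fin r → Fin N)) :=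
    Finset.univ.filter (fun u => Function.Injective u.2 ∧ ∃ p₀, ∀ p, u.1 p ≠ u.2 p₀)
  let bad : ((Fin r → Fin N) × (Fin r → Fin N)) → Finset (Fin t → Fin N → Bool) := fun u =>
    Fintype.piFinset (fun _ : Fin t => Finset.univ.filter (fun f : Fin N → Bool =>
      ∀ p q, f (u.1 p) = f (u.1 q) ↔ f (u.2 p) = f (u.2 q)))
  have hcov : (Finset.univ : Finset (Fin t → Fin N → Bool)) ⊆ G.biUnion bad := by
    intro F _
    obtain ⟨a, b, hb, hp₀, h⟩ := hcon F
    refine Finset.mem_biUnion.mpr ⟨(a, b), Finset.mem_filter.mpr ⟨Finset.mem_univ _, hb, hp₀⟩, ?_⟩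
    refine Fintype.mem_piFinset.mpr (fun i => Finset.mem_filter.mpr ⟨Finset.mem_univ _, ?_⟩)
    exact h i
  have hbad : ∀ u ∈ G, (bad u).card * 2 ^ t ≤ (2 ^ N) ^ t := by
    intro u hu
    obtain ⟨hb, p₀, hp₀⟩ := (Finset.mem_filter.mp hu).2
    have h1 := half hr u.1 u.2 hb p₀ hp₀
    simp only [bad]
    rw [Fintype.card_piFinset, Finset.prod_const, Finset.card_univ, Fintype.card_fin, ← mul_pow]
    apply Nat.pow_le_pow_left
    rw [mul_comm]
    exact h1
  have hGc : G.card ≤ N ^ (2 * r) := by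
    calc G.card ≤ Fintype.card ((Fin r → Fin N) × (Fin r → Fin N)) := Finset.card_le_univ _
      _ = N ^ (2 * r) := by
        rw [Fintype.card_prod, Fintype.card_fun, Fintype.card_fin, Fintype.card_fin, ← pow_add,
          two_mul]
  have h1 : (2 ^ N) ^ t * 2 ^ t ≤ N ^ (2 * r) * (2 ^ N) ^ t := by
    calc (2 ^ N) ^ t * 2 ^ t = (Finset.univ : Finset (Fin t → Fin N → Bool)).card * 2 ^ t := by
          rw [Finset.card_univ, Fintype.card_fun, Fintype.card_fun, Fintype.card_fin,
            Fintype.card_fin, Fintype.card_bool]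
      _ ≤ (∑ u ∈ G, (bad u).card) * 2 ^ t :=
          Nat.mul_le_mul_right _ ((Finset.card_le_card hcov).trans Finset.card_biUnion_le)
      _ = ∑ u ∈ G, (bad u).card * 2 ^ t := Finset.sum_mul _ _ _
      _ ≤ ∑ _u ∈ G, (2 ^ N) ^ t := Finset.sum_le_sum hbad
      _ = G.card * (2 ^ N) ^ t := by rw [Finset.sum_const, smul_eq_mul]
      _ ≤ N ^ (2 * r) * (2 ^ N) ^ t := Nat.mul_le_mul_right _ hGc
  have hpos : 0 < (2 ^ N) ^ t := by positivity
  rw [mul_comm] at h1
  have := Nat.le_of_mul_le_mul_right h1 hpos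
  omega

/-- All colourings of the `r`-subsets of `N` points are determined by `t` equivalence relations if
`N ^ (2 r) < 2 ^ t`. -/
theorem det_all {N r t : ℕ} (hr : 2 ≤ r) (ht : N ^ (2 * r) < 2 ^ t) {κ : Type}
    (c : Finset (Fin N) → κ) : DetRel t r c := by
  classical
  obtain ⟨F, hF⟩ := exists_bipartitions hr ht
  refine ⟨fun i => Setoid.ker (F i), ?_⟩
  intro A B hA hB φ hφ
  by_cases hAB : A = B
  · rw [hAB]
  exfalso
  obtain ⟨y, hyB, hyA⟩ : ∃ y ∈ B, y ∉ A := by
    by_contra hcon
    push Not at hcon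
    exact hAB (Finset.eq_of_subset_of_card_le hcon (by rw [hA, hB])).symm
  have e : Fin r ≃ A := (Fintype.equivFinOfCardEq (by rw [Fintype.card_coe, hA])).symm
  refine hF (fun p => (e p : Fin N)) (fun p => (φ (e p) : Fin N)) ?_ ?_ ?_
  · intro p q h
    exact e.injective (φ.injective (Subtype.ext h))
  · refine ⟨e.symm (φ.symm ⟨y, hyB⟩), ?_⟩
    intro p h
    simp only [Equiv.apply_symm_apply] at h
    exact hyA (h ▸ (e p).2)
  · intro i p q
    exact hφ i (e p) (e q)

end Pool.Agent.Q142.SF
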