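import Pool.Agent.Q142.SF.Conj
import Pool.Agent.H560R2.Spread2

/-!
# Sunflowers in families of more than `(C k log k log t) ^ t` sets

The sunflower lemma of Alweiss, Lovett, Wu and Zhang (in the form with the product of the
logarithms), from the robust sunflower lemma of the starting library `H560R2`: disjoint random sets
are obtained by applying permutations of the values of the random function at every vertex.
-/

set_option autoImplicit false

namespace Pool.Agent.Q142.SF

open Finset Pool.Agent.H560R2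

theorem perms {X : Type} [Fintype X] [DecidableEq X] (D : Finset X) (k : ℕ)
    (hk : k * D.card ≤ Fintype.card X) :
    ∃ π : Fin k → Equiv.Perm X, ∀ c c' x, π c x ∈ D → π c' x ∈ D → c = c' := by
  classical
  have hcard : Fintype.card (Fin k × D) ≤ Fintype.card X := by
    rw [Fintype.card_prod, Fintype.card_fin, Fintype.card_coe]; exact hk
  obtain ⟨f⟩ := Function.Embedding.nonempty_of_card_le hcard
  have hinj : ∀ c : Fin k, Function.Injective (fun d : D => f (c, d)) := by
    intro c d d' h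
    have := f.injective h
    exact (Prod.mk.inj this).2
  have hex : ∀ c : Fin k, ∃ π : Equiv.Perm X, ∀ x, π x ∈ D → ∃ d : D, f (c, d) = x := by
    intro c
    let e : {x // x ∈ Set.range (fun d : D => f (c, d))} ≃ {x // x ∈ D} :=
      (Equiv.ofInjective _ (hinj c)).symm
    refine ⟨e.extendSubtype, ?_⟩
    intro x hx
    by_contra hcon
    have hnot : x ∉ Set.range (fun d : D => f (c, d)) := by
      rintro ⟨d, hd⟩
      exact hcon ⟨d, hd⟩
    exact e.extendSubtype_not_mem x hnot hx
  choose π hπ using hex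
  refine ⟨π, ?_⟩
  intro c c' x h h'
  obtain ⟨d, hd⟩ := hπ c x h
  obtain ⟨d', hd'⟩ := hπ c' x h'
  have := f.injective (hd.trans hd'.symm)
  exact (Prod.mk.inj this).1

theorem count_coord {ι' : Type} [Fintype ι'] [DecidableEq ι'] {Q : ℕ} [NeZero Q] (a : ι') :
    (Finset.univ.filter (fun x : ι' → Fin Q => x a = 0)).card * Q = Q ^ Fintype.card ι' := by
  classical
  have h1 : (Finset.univ.filter (fun x : ι' → Fin Q => x a = 0)).card =
      (({0} : Finset (Fin Q)) ×ˢ (Finset.univ : Finset ({j : ι' // j ≠ a} → Fin Q))).card := by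
    apply Finset.card_equiv (Equiv.funSplitAt a (Fin Q))
    intro x
    simp [Equiv.funSplitAt, Equiv.piSplitAt, eq_comm]
  have h2 : Fintype.card {j : ι' // j ≠ a} = Fintype.card ι' - 1 := by
    rw [Fintype.card_subtype_compl, Fintype.card_subtype_eq]
  have h3 : 0 < Fintype.card ι' := Fintype.card_pos_iff.mpr ⟨a⟩
  rw [h1, Finset.card_product, Finset.card_singleton, one_mul, Finset.card_univ, Fintype.card_fun,
    Fintype.card_fin, h2, ← pow_succ, Nat.sub_add_cancel h3]

/-- The sunflower lemma with logarithms. -/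
theorem sunflower {ι : Type} [Fintype ι] [DecidableEq ι] (k l B J : ℕ) (hk1 : 1 ≤ k)
    (hB1 : 1 ≤ B) (hJ1 : 1 ≤ J) (hk : k < 4 ^ B) (hJ : l < 2 ^ J)
    (𝒮 : Finset (Finset ι)) (hS : ∀ S ∈ 𝒮, S.card = l)
    (hbig : (64 * (k * (B * J))) ^ l < 𝒮.card) :
    ∃ T ⊆ 𝒮, T.card = k ∧ ∃ K : Finset ι, ∀ A ∈ T, ∀ A' ∈ T, A ≠ A' → A ∩ A' = K := by
  classical
  let Q := k * (B * J)
  have hQpos : 0 < Q := Nat.mul_pos hk1 (Nat.mul_pos hB1 hJ1)
  have : NeZero Q := ⟨hQpos.ne'⟩
  obtain ⟨Y, ⟨S₀, hS₀, hYS₀⟩, hbad⟩ :=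
    robust_sunflower (Q := Q) B J (64 * Q) l le_rfl hJ 𝒮 hS hbig
  -- the values at one vertex
  let X := Fin B × Fin J → Fin Q
  let D : Finset X := Finset.univ.filter (fun x => ∃ p, x p = 0)
  have hD : k * D.card ≤ Fintype.card X := by
    have h1 : D.card ≤ ∑ p : Fin B × Fin J,
        (Finset.univ.filter (fun x : X => x p = 0)).card := by
      refine (Finset.card_le_card ?_).trans Finset.card_biUnion_le
      intro x hx
      obtain ⟨p, hp⟩ := (Finset.mem_filter.mp hx).2
      exact Finset.mem_biUnion.mpr ⟨p, Finset.mem_univ _,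
        Finset.mem_filter.mpr ⟨Finset.mem_univ _, hp⟩⟩
    have h2 : D.card * Q ≤ (B * J) * Fintype.card X := by
      have hX : Fintype.card X = Q ^ Fintype.card (Fin B × Fin J) := by
        simp only [X, Fintype.card_fun, Fintype.card_fin]
      calc D.card * Q ≤ (∑ p : Fin B × Fin J,
            (Finset.univ.filter (fun x : X => x p = 0)).card) * Q := Nat.mul_le_mul_right _ h1
        _ = ∑ p : Fin B × Fin J,
            (Finset.univ.filter (fun x : X => x p = 0)).card * Q := Finset.sum_mul _ _ _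
        _ = ∑ _p : Fin B × Fin J, Fintype.card X := by
            refine Finset.sum_congr rfl (fun p _ => ?_)
            rw [hX]
            exact count_coord p
        _ = (B * J) * Fintype.card X := by
            rw [Finset.sum_const, Finset.card_univ, Fintype.card_prod, Fintype.card_fin,
              Fintype.card_fin, smul_eq_mul]
    have h3 : (k * D.card) * (B * J) ≤ Fintype.card X * (B * J) := by
      calc (k * D.card) * (B * J) = D.card * Q := by simp only [Q]; ring
        _ ≤ (B * J) * Fintype.card X := h2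
        _ = Fintype.card X * (B * J) := by ring
    exact Nat.le_of_mul_le_mul_right h3 (Nat.mul_pos hB1 hJ1)
  obtain ⟨π, hπ⟩ := perms D k hD
  let Ω := Fin B → Fin J → ι → Fin Q
  let Φ : Fin k → Ω → Ω := fun c ω b j v => π c (fun p => ω p.1 p.2 v) (b, j)
  have hΦinj : ∀ c, Function.Injective (Φ c) := by
    intro c ω ω' h
    funext b j v
    have h1 : π c (fun p => ω p.1 p.2 v) = π c (fun p => ω' p.1 p.2 v) := by
      funext p
      exact congrFun (congrFun (congrFun h p.1) p.2) v
    have h2 := (π c).injective h1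
    exact congrFun h2 (b, j)
  have hΦbij : ∀ c, Function.Bijective (Φ c) := fun c =>
    Finite.injective_iff_bijective.mp (hΦinj c)
  have hWB : ∀ c ω v, v ∈ WB (Φ c ω) ↔ π c (fun p => ω p.1 p.2 v) ∈ D := by
    intro c ω v
    rw [mem_WB]
    simp only [D, Finset.mem_filter, Finset.mem_univ, true_and, Φ]
    constructor
    · rintro ⟨b, j, h⟩; exact ⟨(b, j), h⟩
    · rintro ⟨p, h⟩; exact ⟨p.1, p.2, h⟩
  let P : Ω → Prop := fun ω => ∀ S ∈ 𝒮, Y ⊆ S → ¬ S \ Y ⊆ WB ω
  have hcount : ∀ c, (Finset.univ.filter (fun ω => P (Φ c ω))).card =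
      (Finset.univ.filter P).card := by
    intro c
    apply Finset.card_equiv (Equiv.ofBijective (Φ c) (hΦbij c))
    intro ω
    simp only [Finset.mem_filter, Finset.mem_univ, true_and, Equiv.ofBijective_apply]
  have hΩ : Fintype.card Ω = ((Q ^ Fintype.card ι) ^ J) ^ B := by
    simp only [Ω, Fintype.card_fun, Fintype.card_fin]
  have hΩpos : 0 < Fintype.card Ω := by
    rw [hΩ]; positivity
  obtain ⟨ω, hω⟩ : ∃ ω : Ω, ∀ c, ¬ P (Φ c ω) := by
    by_contra hcon
    push Not at hcon
    have h1 : Fintype.card Ω ≤ ∑ c : Fin k, (Finset.univ.filter (fun ω => P (Φ c ω))).card := by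
      rw [← Finset.card_univ]
      refine (Finset.card_le_card ?_).trans Finset.card_biUnion_le
      intro ω _
      obtain ⟨c, hc⟩ := hcon ω
      exact Finset.mem_biUnion.mpr ⟨c, Finset.mem_univ _,
        Finset.mem_filter.mpr ⟨Finset.mem_univ _, hc⟩⟩
    rw [Finset.sum_congr rfl (fun c _ => hcount c), Finset.sum_const, Finset.card_univ,
      Fintype.card_fin, smul_eq_mul] at h1
    have h2 : (Finset.univ.filter P).card * 4 ^ B ≤ Fintype.card Ω := by
      rw [hΩ]; exact hbad
    have h3 : Fintype.card Ω * 4 ^ B ≤ Fintype.card Ω * k := by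
      calc Fintype.card Ω * 4 ^ B ≤ (k * (Finset.univ.filter P).card) * 4 ^ B :=
            Nat.mul_le_mul_right _ h1
        _ = k * ((Finset.univ.filter P).card * 4 ^ B) := by ring
        _ ≤ k * Fintype.card Ω := Nat.mul_le_mul_left _ h2
        _ = Fintype.card Ω * k := by ring
    have h4 := Nat.le_of_mul_le_mul_left h3 hΩpos
    omega
  have hex : ∀ c, ∃ S, S ∈ 𝒮 ∧ Y ⊆ S ∧ S \ Y ⊆ WB (Φ c ω) := by
    intro c
    have := hω c
    simp only [P] at this
    push Not at this
    exact this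
  choose S hS1 hS2 hS3 using hex
  have hYl : Y.card < l := by
    have := Finset.card_lt_card hYS₀
    rwa [hS S₀ hS₀] at this
  have hdis : ∀ c c', c ≠ c' → S c ∩ S c' = Y := by
    intro c c' hne
    ext v
    rw [Finset.mem_inter]
    constructor
    · rintro ⟨h1, h2⟩
      by_contra hv
      have h3 := (hWB c ω v).mp (hS3 c (Finset.mem_sdiff.mpr ⟨h1, hv⟩))
      have h4 := (hWB c' ω v).mp (hS3 c' (Finset.mem_sdiff.mpr ⟨h2, hv⟩))
      exact hne (hπ c c' _ h3 h4)
    · intro hv
      exact ⟨hS2 c hv, hS2 c' hv⟩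
  have hinj : Function.Injective S := by
    intro c c' h
    by_contra hne
    have h1 := hdis c c' hne
    rw [← h, Finset.inter_self] at h1
    have h2 := hS (S c) (hS1 c)
    rw [h1] at h2
    omega
  refine ⟨Finset.univ.image S, ?_, ?_, Y, ?_⟩
  · intro A hA
    obtain ⟨c, _, rfl⟩ := Finset.mem_image.mp hA
    exact hS1 c
  · rw [Finset.card_image_of_injective _ hinj, Finset.card_univ, Fintype.card_fin]
  · intro A hA A' hA' hne
    obtain ⟨c, _, rfl⟩ := Finset.mem_image.mp hA
    obtain ⟨c', _, rfl⟩ := Finset.mem_image.mp hA'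
    exact hdis c c' (fun h => hne (by rw [h]))

theorem sf_le_log (t k : ℕ) (hk : 2 ≤ k) :
    sf t k ≤ (64 * (k * ((Nat.log 4 k + 1) * (Nat.log 2 t + 1)))) ^ t := by
  classical
  obtain ⟨F, hF, hFc⟩ := exists_sf t k (by omega)
  by_contra hlt
  push Not at hlt
  obtain ⟨m, hm⟩ : ∃ m, ∀ x ∈ F, ∀ i, x i < m := by
    refine ⟨F.sup (fun x => Finset.univ.sup x) + 1, ?_⟩
    intro x hx i
    have h1 : x i ≤ Finset.univ.sup x := Finset.le_sup (Finset.mem_univ i)
    have h2 : Finset.univ.sup x ≤ F.sup (fun x => Finset.univ.sup x) :=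
      Finset.le_sup (f := fun x => Finset.univ.sup x) hx
    omega
  let g : (Fin t → ℕ) → Finset (Fin t × Fin m) := fun x =>
    Finset.univ.filter (fun p => (p.2 : ℕ) = x p.1)
  have hg : ∀ x (p : Fin t × Fin m), p ∈ g x ↔ (p.2 : ℕ) = x p.1 := by
    intro x p
    simp only [g, Finset.mem_filter, Finset.mem_univ, true_and]
  have hgcard : ∀ x ∈ F, (g x).card = t := by
    intro x hx
    have h1 : g x = Finset.univ.image (fun i : Fin t => (i, (⟨x i, hm x hx i⟩ : Fin m))) := by
      ext p
      rw [hg, Finset.mem_image]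
      constructor
      · intro h
        exact ⟨p.1, Finset.mem_univ _, Prod.ext rfl (Fin.ext h.symm)⟩
      · rintro ⟨i, _, rfl⟩
        rfl
    rw [h1, Finset.card_image_of_injective, Finset.card_univ, Fintype.card_fin]
    intro i j h
    exact (Prod.mk.inj h).1
  have hginj : Set.InjOn g (F : Set (Fin t → ℕ)) := by
    intro x hx y hy hxy
    funext i
    have h1 : ((i, ⟨x i, hm x hx i⟩) : Fin t × Fin m) ∈ g x := (hg _ _).mpr rfl
    rw [hxy, hg] at h1
    exact h1
  obtain ⟨T, hT, hTc, K, hK⟩ := sunflower k t (Nat.log 4 k + 1) (Nat.log 2 t + 1) (by omega)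
    (by omega) (by omega) (Nat.lt_pow_succ_log_self (by norm_num) k)
    (Nat.lt_pow_succ_log_self (by norm_num) t) (F.image g)
    (by
      intro A hA
      obtain ⟨x, hx, rfl⟩ := Finset.mem_image.mp hA
      exact hgcard x hx)
    (by rw [Finset.card_image_of_injOn hginj, hFc]; exact hlt)
  obtain ⟨T', hT', hTT'⟩ := Finset.subset_image_iff.mp hT
  have hT'' : T' ⊆ F := fun x hx => hT' hx
  have hT'c : T'.card = k := by
    rw [← hTc, ← hTT', Finset.card_image_of_injOn (hginj.mono hT')]
  have hmem : ∀ x ∈ T', g x ∈ T := fun x hx => hTT' ▸ Finset.mem_image_of_mem _ hx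
  have hne : ∀ x ∈ T', ∀ y ∈ T', x ≠ y → g x ≠ g y :=
    fun x hx y hy h h' => h (hginj (hT'' hx) (hT'' hy) h')
  refine hF T' hT'' hT'c (fun i => ?_)
  by_cases hi : ∃ a, (i, a) ∈ K
  · obtain ⟨a, ha⟩ := hi
    have hval : ∀ x ∈ T', x i = (a : ℕ) := by
      intro x hx
      obtain ⟨y, hy, hxy⟩ := Finset.exists_mem_ne (show 1 < T'.card by omega) x
      have h1 := hK _ (hmem y hy) _ (hmem x hx) (hne y hy x hx hxy)
      rw [← h1, Finset.mem_inter, hg, hg] at ha
      exact ha.2.symm
    left
    intro x hx y hy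
    simp only [hval x hx, hval y hy]
  · right
    intro x hx y hy hxy
    by_contra hxne
    apply hi
    refine ⟨⟨x i, hm x (hT'' hx) i⟩, ?_⟩
    rw [← hK _ (hmem x hx) _ (hmem y hy) (hne x hx y hy hxne), Finset.mem_inter, hg, hg]
    exact ⟨rfl, hxy⟩

end Pool.Agent.Q142.SF
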