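import Pool.Agent.Q142.SF.Basic

/-!
# Colourings determined by `t` equivalence relations
-/

set_option autoImplicit false

namespace Pool.Agent.Q142.SF

open Finset

/-- The colouring `c` of the `r`-subsets is determined by `t` equivalence relations `E 0, …,
E (t - 1)` of the vertices: two `r`-sets have the same colour if some bijection between them
preserves all the relations. -/
def DetRel (t r : ℕ) {V κ : Type} (c : Finset V → κ) : Prop :=
  ∃ E : Fin t → Setoid V, ∀ A B : Finset V, A.card = r → B.card = r →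
    ∀ φ : A ≃ B, (∀ (i : Fin t) (x y : A), E i x y ↔ E i (φ x) (φ y)) → c A = c B

/-- All `r`-subsets of `S` have the same colour. -/
def HomSet (r : ℕ) {V κ : Type} (c : Finset V → κ) (S : Finset V) : Prop :=
  ∀ A ⊆ S, ∀ B ⊆ S, A.card = r → B.card = r → c A = c B

theorem ramsey_upper {t r k N : ℕ} {κ : Type} (c : Finset (Fin N) → κ) (hc : DetRel t r c)
    (hN : (k - 1) * sf t k < N) : ∃ S : Finset (Fin N), S.card = k ∧ HomSet r c S := by
  classical
  obtain ⟨E, hE⟩ := hc
  let e : Fin t → Fin N → ℕ := fun i x => ((Quotient.mk (E i) x).out : Fin N).val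
  have he : ∀ i x y, e i x = e i y ↔ E i x y := by
    intro i x y
    constructor
    · intro h
      have h1 : (Quotient.mk (E i) x).out = (Quotient.mk (E i) y).out := Fin.val_injective h
      have h2 : Quotient.mk (E i) x = Quotient.mk (E i) y := Quotient.out_injective h1
      exact Quotient.exact h2
    · intro h
      have h2 : Quotient.mk (E i) x = Quotient.mk (E i) y := Quotient.sound h
      simp only [e, h2]
  obtain ⟨S, _, hSc, hS⟩ := find e (Finset.univ : Finset (Fin N)) (k := k) (by
    rw [Finset.card_univ, Fintype.card_fin]; exact hN)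
  refine ⟨S, hSc, ?_⟩
  intro A hA B hB hAr hBr
  let φ : A ≃ B := Fintype.equivOfCardEq (by
    rw [Fintype.card_coe, Fintype.card_coe, hAr, hBr])
  refine hE A B hAr hBr φ ?_
  intro i x y
  rw [← he, ← he]
  rcases hS i with h | h
  · exact ⟨fun _ => h _ (hB (φ x).2) _ (hB (φ y).2), fun _ => h _ (hA x.2) _ (hA y.2)⟩
  · constructor
    · intro hxy
      have : x = y := Subtype.ext (h _ (hA x.2) _ (hA y.2) hxy)
      rw [this]
    · intro hxy
      have : φ x = φ y := Subtype.ext (h _ (hB (φ x).2) _ (hB (φ y).2) hxy)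
      rw [φ.injective this]

/-- The extremal configuration: `sf t k` classes of `k - 1` points. -/
theorem points (t k : ℕ) (hk : 1 ≤ k) : ∃ e : Fin t → Fin ((k - 1) * sf t k) → ℕ,
    ∀ S : Finset (Fin ((k - 1) * sf t k)), S.card = k → ¬ ∀ i, Triv (e i) S := by
  classical
  obtain ⟨F, hF, hFc⟩ := exists_sf t k hk
  have hcard : Fintype.card (Fin (k - 1) × F) = (k - 1) * sf t k := by
    rw [Fintype.card_prod, Fintype.card_fin, Fintype.card_coe, hFc]
  let ψ : Fin (k - 1) × F ≃ Fin ((k - 1) * sf t k) := Fintype.equivFinOfCardEq hcard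
  let p : Fin ((k - 1) * sf t k) → (Fin t → ℕ) := fun v => (ψ.symm v).2.1
  have hpF : ∀ v, p v ∈ F := fun v => (ψ.symm v).2.2
  refine ⟨fun i v => p v i, ?_⟩
  intro S hSc hS
  by_cases hinj : Set.InjOn p (S : Set (Fin ((k - 1) * sf t k)))
  · refine hF (S.image p) ?_ ?_ ?_
    · intro z hz
      obtain ⟨v, _, rfl⟩ := Finset.mem_image.mp hz
      exact hpF v
    · rw [Finset.card_image_of_injOn hinj, hSc]
    · intro i
      rcases hS i with h | h
      · left
        intro z hz w hw
        obtain ⟨v, hv, rfl⟩ := Finset.mem_image.mp hz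
        obtain ⟨u, hu, rfl⟩ := Finset.mem_image.mp hw
        exact h v hv u hu
      · right
        intro z hz w hw hzw
        obtain ⟨v, hv, rfl⟩ := Finset.mem_image.mp hz
        obtain ⟨u, hu, rfl⟩ := Finset.mem_image.mp hw
        rw [h v hv u hu hzw]
  · -- two points with the same member: all points have this member
    unfold Set.InjOn at hinj
    push Not at hinj
    obtain ⟨x, hx, y, hy, hxy, hne⟩ := hinj
    have hall : ∀ v ∈ S, ∀ u ∈ S, p v = p u := by
      intro v hv u hu
      funext i
      rcases hS i with h | h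
      · exact h v hv u hu
      · exact absurd (h x hx y hy (congrFun hxy i)) hne
    have hinj2 : Set.InjOn (fun v => (ψ.symm v).1) (S : Set (Fin ((k - 1) * sf t k))) := by
      intro v hv u hu hvu
      apply ψ.symm.injective
      exact Prod.ext hvu (Subtype.ext (hall v hv u hu))
    have h1 := Finset.card_le_card_of_injOn (s := S) (t := (Finset.univ : Finset (Fin (k - 1))))
      (fun v => (ψ.symm v).1) (fun _ _ => Finset.mem_univ _) hinj2
    rw [hSc, Finset.card_univ, Fintype.card_fin] at h1
    omega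

/-- If all `r`-subsets are trivial then the whole set is trivial, `r ≥ 3`. -/
theorem triv_of_all {V W : Type} [DecidableEq V] (f : V → W) (S : Finset V) {r : ℕ} (hr : 3 ≤ r)
    (hrS : r ≤ S.card) (h : ∀ A ⊆ S, A.card = r → Triv f A) : Triv f S := by
  by_contra hcon
  unfold Triv at hcon
  push Not at hcon
  obtain ⟨⟨x, hx, y, hy, hxy⟩, ⟨a, ha, b, hb, hab, hne⟩⟩ := hcon
  obtain ⟨c, hc, hca⟩ : ∃ c ∈ S, f c ≠ f a := by
    by_cases hxa : f x = f a
    · exact ⟨y, hy, fun h => hxy (hxa.trans h.symm)⟩
    · exact ⟨x, hx, hxa⟩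
  have hc1 : c ≠ a := fun h => hca (by rw [h])
  have hc2 : c ≠ b := fun h => hca (by rw [h, hab])
  have hT : ({a, b, c} : Finset V) ⊆ S := by
    intro z hz
    simp only [Finset.mem_insert, Finset.mem_singleton] at hz
    rcases hz with rfl | rfl | rfl
    · exact ha
    · exact hb
    · exact hc
  have hTc : ({a, b, c} : Finset V).card = 3 := by
    rw [Finset.card_insert_of_notMem, Finset.card_insert_of_notMem, Finset.card_singleton]
    · simp only [Finset.mem_singleton]; exact fun h => hc2 h.symm
    · simp only [Finset.mem_insert, Finset.mem_singleton, not_or]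
      exact ⟨hne, fun h => hc1 h.symm⟩
  obtain ⟨A, hTA, hAS, hAc⟩ := Finset.exists_subsuperset_card_eq hT (by rw [hTc]; exact hr) hrS
  have haA : a ∈ A := hTA (by simp)
  have hbA : b ∈ A := hTA (by simp)
  have hcA : c ∈ A := hTA (by simp)
  rcases h A hAS hAc with h' | h'
  · exact hca (h' c hcA a haA)
  · exact hne (h' a haA b hbA hab)

theorem triv_equiv {V : Type} {A B : Finset V} (f : V → ℕ) (φ : A ≃ B)
    (h : ∀ x y : A, f x = f y ↔ f (φ x) = f (φ y)) : Triv f A → Triv f B := by
  rintro (h1 | h1)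
  · left
    intro x hx y hy
    have := (h (φ.symm ⟨x, hx⟩) (φ.symm ⟨y, hy⟩)).mp (h1 _ (φ.symm ⟨x, hx⟩).2 _
      (φ.symm ⟨y, hy⟩).2)
    simpa using this
  · right
    intro x hx y hy hxy
    have := (h (φ.symm ⟨x, hx⟩) (φ.symm ⟨y, hy⟩)).mpr (by simpa using hxy)
    have h2 := h1 _ (φ.symm ⟨x, hx⟩).2 _ (φ.symm ⟨y, hy⟩).2 this
    have h3 := φ.symm.injective (Subtype.ext h2)
    exact congrArg Subtype.val h3

/-- Lower bound with two colours. -/
theorem lower_two {t r k : ℕ} (hr : 3 ≤ r) (hk : (r - 1) * sf t r < k) :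
    ∃ c : Finset (Fin ((k - 1) * sf t k)) → Bool, DetRel t r c ∧
      ∀ S : Finset (Fin ((k - 1) * sf t k)), S.card = k → ¬ HomSet r c S := by
  classical
  obtain ⟨e, he⟩ := points t k (by omega)
  refine ⟨fun A => decide (∀ i, Triv (e i) A), ?_, ?_⟩
  · refine ⟨fun i => Setoid.ker (e i), ?_⟩
    intro A B _ _ φ hφ
    have hφ' : ∀ i, ∀ x y : A, e i x = e i y ↔ e i (φ x) = e i (φ y) := hφ
    refine decide_eq_decide.mpr ⟨fun h i => triv_equiv (e i) φ (hφ' i) (h i), ?_⟩
    intro h i
    refine triv_equiv (e i) φ.symm ?_ (h i)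
    intro x y
    have := hφ' i (φ.symm x) (φ.symm y)
    simp only [Equiv.apply_symm_apply] at this
    exact this.symm
  · intro S hSc hhom
    obtain ⟨A, hAS, hAc, hA⟩ := find e S (k := r) (by rw [hSc]; exact hk)
    have hall : ∀ B ⊆ S, B.card = r → ∀ i, Triv (e i) B := by
      intro B hB hBc
      have h1 := hhom A hAS B hB hAc hBc
      have h2 : decide (∀ i, Triv (e i) A) = true := decide_eq_true hA
      simp only at h1
      rw [h2] at h1
      exact of_decide_eq_true h1.symm
    refine he S hSc (fun i => ?_)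
    refine triv_of_all (e i) S hr ?_ (fun B hB hBc => hall B hB hBc i)
    rw [← hAc]
    exact Finset.card_le_card hAS

/-- The number of ordered pairs of points of `A` with the same value of `f`. -/
def pairs {V : Type} (f : V → ℕ) (A : Finset V) : ℕ :=
  ∑ x ∈ A, (A.filter (fun y => f x = f y)).card

theorem pairs_equiv {V : Type} {A B : Finset V} (f : V → ℕ) (φ : A ≃ B)
    (h : ∀ x y : A, f x = f y ↔ f (φ x) = f (φ y)) : pairs f A = pairs f B := by
  classical
  have key : ∀ C : Finset V, pairs f C = ∑ x : C, ∑ y : C, if f x = f y then 1 else 0 := by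
    intro C
    unfold pairs
    rw [← Finset.sum_coe_sort C]
    refine Finset.sum_congr rfl (fun x _ => ?_)
    rw [Finset.card_filter, ← Finset.sum_coe_sort C]
  rw [key, key]
  rw [← Equiv.sum_comp φ]
  refine Finset.sum_congr rfl (fun x _ => ?_)
  rw [← Equiv.sum_comp φ]
  refine Finset.sum_congr rfl (fun y _ => ?_)
  simp only [h x y]

theorem pairs_insert {V : Type} [DecidableEq V] (f : V → ℕ) (A : Finset V) (b : V) (hb : b ∉ A) :
    pairs f (insert b A) = pairs f A + 2 * (∑ x ∈ A, if f x = f b then 1 else 0) + 1 := by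
  unfold pairs
  rw [Finset.sum_insert hb, Finset.filter_insert, if_pos rfl, Finset.card_insert_of_notMem
    (fun h => hb (Finset.mem_filter.mp h).1)]
  have h1 : ∀ x ∈ A, ((insert b A).filter (fun y => f x = f y)).card =
      (A.filter (fun y => f x = f y)).card + if f x = f b then 1 else 0 := by
    intro x _
    rw [Finset.filter_insert]
    by_cases h : f x = f b
    · rw [if_pos h, if_pos h, Finset.card_insert_of_notMem
        (fun h => hb (Finset.mem_filter.mp h).1)]
    · rw [if_neg h, if_neg h]; rfl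
  rw [Finset.sum_congr rfl h1, Finset.sum_add_distrib, Finset.card_filter]
  have h2 : ∑ x ∈ A, (if f b = f x then 1 else 0) = ∑ x ∈ A, if f x = f b then 1 else 0 :=
    Finset.sum_congr rfl (fun x _ => by simp only [eq_comm])
  rw [h2]
  ring

/-- If all `r`-subsets have equally many equivalent pairs then the relation is trivial. -/
theorem triv_of_pairs {V : Type} [DecidableEq V] (f : V → ℕ) (S : Finset V) {r : ℕ} (hr : 2 ≤ r)
    (hrS : r + 2 ≤ S.card)
    (h : ∀ A ⊆ S, ∀ B ⊆ S, A.card = r → B.card = r → pairs f A = pairs f B) : Triv f S := by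
  by_contra hcon
  unfold Triv at hcon
  push Not at hcon
  obtain ⟨⟨x, hx, y, hy, hxy⟩, ⟨a, ha, b, hb, hab, hne⟩⟩ := hcon
  obtain ⟨c, hc, hca⟩ : ∃ c ∈ S, f c ≠ f a := by
    by_cases hxa : f x = f a
    · exact ⟨y, hy, fun h => hxy (hxa.trans h.symm)⟩
    · exact ⟨x, hx, hxa⟩
  have hc1 : c ≠ a := fun h => hca (by rw [h])
  have hc2 : c ≠ b := fun h => hca (by rw [h, hab])
  -- the set `S` without `b`, `c`
  let T := (S.erase b).erase c
  have haT : a ∈ T := by
    simp only [T, Finset.mem_erase]
    exact ⟨hc1.symm, hne, ha⟩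
  have hTc : r ≤ T.card := by
    have h1 : (S.erase b).card = S.card - 1 := Finset.card_erase_of_mem hb
    have h2 : T.card = (S.erase b).card - 1 :=
      Finset.card_erase_of_mem (Finset.mem_erase.mpr ⟨hc2, hc⟩)
    omega
  have hTS : T ⊆ S := (Finset.erase_subset _ _).trans (Finset.erase_subset _ _)
  obtain ⟨T', haT', hT'T, hT'c⟩ := Finset.exists_subsuperset_card_eq
    (Finset.singleton_subset_iff.mpr haT) (by rw [Finset.card_singleton]; omega) hTc
  let g : V → ℤ := fun x => (if f x = f b then 1 else 0) - (if f x = f c then 1 else 0)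
  have hzero : ∀ X ⊆ T, X.card = r - 1 → ∑ x ∈ X, g x = 0 := by
    intro X hX hXc
    have hbX : b ∉ X := by
      intro h
      have := hX h
      simp only [T, Finset.mem_erase] at this
      exact this.2.1 rfl
    have hcX : c ∉ X := by
      intro h
      have := hX h
      simp only [T, Finset.mem_erase] at this
      exact this.1 rfl
    have h1 := h (insert b X) (Finset.insert_subset hb (hX.trans hTS)) (insert c X)
      (Finset.insert_subset hc (hX.trans hTS))
      (by rw [Finset.card_insert_of_notMem hbX]; omega)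
      (by rw [Finset.card_insert_of_notMem hcX]; omega)
    rw [pairs_insert f X b hbX, pairs_insert f X c hcX] at h1
    have h2 : (∑ x ∈ X, if f x = f b then 1 else 0) = ∑ x ∈ X, if f x = f c then 1 else 0 := by
      omega
    simp only [g, Finset.sum_sub_distrib]
    have h3 : (∑ x ∈ X, (if f x = f b then (1 : ℤ) else 0)) =
        ((∑ x ∈ X, if f x = f b then 1 else 0 : ℕ) : ℤ) := by push_cast; rfl
    have h4 : (∑ x ∈ X, (if f x = f c then (1 : ℤ) else 0)) =
        ((∑ x ∈ X, if f x = f c then 1 else 0 : ℕ) : ℤ) := by push_cast; rfl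
    rw [h3, h4, h2]
    ring
  have hconst : ∀ x ∈ T', g x = ∑ z ∈ T', g z := by
    intro x hx
    have h1 := hzero (T'.erase x) ((Finset.erase_subset _ _).trans hT'T)
      (by rw [Finset.card_erase_of_mem hx, hT'c])
    rw [← Finset.add_sum_erase T' g hx, h1, add_zero]
  have hsum : (∑ z ∈ T', g z) = (r : ℤ) * ∑ z ∈ T', g z := by
    conv_lhs => rw [Finset.sum_congr rfl hconst]
    rw [Finset.sum_const, hT'c, nsmul_eq_mul]
  have hz : (∑ z ∈ T', g z) = 0 := by
    have h1 : ((r : ℤ) - 1) * ∑ z ∈ T', g z = 0 := by linarith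
    rcases mul_eq_zero.mp h1 with h2 | h2
    · omega
    · exact h2
  have hga : g a = 0 := by
    rw [hconst a (haT' (Finset.mem_singleton_self a)), hz]
  simp only [g, if_pos hab, if_neg (fun h : f a = f c => hca h.symm)] at hga
  norm_num at hga

/-- Lower bound with arbitrarily many colours. -/
theorem lower_many {t r k : ℕ} (hr : 2 ≤ r) (hk : r + 2 ≤ k) :
    ∃ c : Finset (Fin ((k - 1) * sf t k)) → (Fin t → ℕ), DetRel t r c ∧
      ∀ S : Finset (Fin ((k - 1) * sf t k)), S.card = k → ¬ HomSet r c S := by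
  classical
  obtain ⟨e, he⟩ := points t k (by omega)
  refine ⟨fun A i => pairs (e i) A, ?_, ?_⟩
  · refine ⟨fun i => Setoid.ker (e i), ?_⟩
    intro A B _ _ φ hφ
    have hφ' : ∀ i, ∀ x y : A, e i x = e i y ↔ e i (φ x) = e i (φ y) := hφ
    funext i
    exact pairs_equiv (e i) φ (hφ' i)
  · intro S hSc hhom
    refine he S hSc (fun i => ?_)
    refine triv_of_pairs (e i) S hr (by rw [hSc]; exact hk) ?_
    intro A hA B hB hAc hBc
    exact congrFun (hhom A hA B hB hAc hBc) i

end Pool.Agent.Q142.SF
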